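import Mathlib

/-! Integer triangles with height/base ratio `|t^2 - 9|` and `|t^2 - 441|`. -/

set_option autoImplicit false

namespace Pool.Agent.Results.MP_49cb33_nt.QuadraticFamilies

theorem dist_pt (x y z w : ℝ) (n : ℝ) (hn : 0 ≤ n) (h : (x - z) ^ 2 + (y - w) ^ 2 = n ^ 2) :
    dist (!₂[x, y] : EuclideanSpace ℝ (Fin 2)) !₂[z, w] = n := by
  rw [EuclideanSpace.dist_eq]
  simp only [Fin.sum_univ_two, Real.dist_eq, sq_abs]
  simp only [Matrix.cons_val_zero, Matrix.cons_val_one]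
  rw [h, Real.sqrt_sq hn]

theorem mem_line (b : ℝ) (hb : b ≠ 0) (Q : EuclideanSpace ℝ (Fin 2)) :
    Q ∈ affineSpan ℝ ({!₂[0, 0], !₂[b, 0]} : Set (EuclideanSpace ℝ (Fin 2))) ↔ Q 1 = 0 := by
  rw [mem_affineSpan_pair_iff_exists_lineMap_eq]
  constructor
  · rintro ⟨r, rfl⟩
    simp [AffineMap.lineMap_apply]
  · intro h
    refine ⟨Q 0 / b, ?_⟩
    ext i
    fin_cases i
    · simp [AffineMap.lineMap_apply, hb]
    · simp [AffineMap.lineMap_apply, h]

theorem infDist_line (b p h : ℝ) (hb : b ≠ 0) :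
    Metric.infDist (!₂[p, h] : EuclideanSpace ℝ (Fin 2))
      (affineSpan ℝ ({!₂[0, 0], !₂[b, 0]} : Set (EuclideanSpace ℝ (Fin 2))) :
        Set (EuclideanSpace ℝ (Fin 2))) = |h| := by
  have hm : (!₂[p, 0] : EuclideanSpace ℝ (Fin 2)) ∈
      affineSpan ℝ ({!₂[0, 0], !₂[b, 0]} : Set (EuclideanSpace ℝ (Fin 2))) :=
    (mem_line b hb _).2 (by simp)
  apply le_antisymm
  · refine (Metric.infDist_le_dist_of_mem hm).trans (le_of_eq ?_)
    exact dist_pt _ _ _ _ _ (abs_nonneg h) (by simp)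
  · refine (Metric.le_infDist ⟨_, hm⟩).2 fun Q hQ => ?_
    have h1 : Q 1 = 0 := (mem_line b hb Q).1 hQ
    have h2 := PiLp.dist_apply_le (!₂[p, h] : EuclideanSpace ℝ (Fin 2)) Q 1
    simpa [h1, Real.dist_eq] using h2

theorem indep (b p h : ℝ) (hb : b ≠ 0) (hh : h ≠ 0) :
    AffineIndependent ℝ ![(!₂[p, h] : EuclideanSpace ℝ (Fin 2)), !₂[0, 0], !₂[b, 0]] := by
  rw [affineIndependent_iff_not_collinear_set]
  intro hc
  have hne : (!₂[0, 0] : EuclideanSpace ℝ (Fin 2)) ≠ !₂[b, 0] := by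
    intro he
    have := congrArg (fun Q : EuclideanSpace ℝ (Fin 2) => Q 0) he
    simp at this
    exact hb this.symm
  have := hc.mem_affineSpan_of_mem_of_ne (p₁ := !₂[0, 0]) (p₂ := !₂[b, 0]) (p₃ := !₂[p, h])
    (by simp) (by simp) (by simp) hne
  rw [mem_line b hb] at this
  exact hh (by simpa using this)

/-- A solution of `k (m s - n r) (m r + n s) = 2 m n r s` gives a triangle. -/
theorem triangle (k m n r s : ℤ) (hk : k ≠ 0) (hm : m ≠ 0) (hn : n ≠ 0) (hr : r ≠ 0)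
    (hs : s ≠ 0) (h : k * (m * s - n * r) * (m * r + n * s) = 2 * m * n * r * s) :
    ∃ (A B C : EuclideanSpace ℝ (Fin 2)) (a b c : ℕ), AffineIndependent ℝ ![A, B, C] ∧
      0 < a ∧ 0 < b ∧ 0 < c ∧ dist A C = a ∧ dist B C = b ∧ dist A B = c ∧
      Metric.infDist A (affineSpan ℝ {B, C} : Set (EuclideanSpace ℝ (Fin 2)))
        = (k.natAbs : ℝ) * b := by
  have hb : 2 * m * n * r * s ≠ 0 := by positivity
  have hb' : ((2 * m * n * r * s : ℤ) : ℝ) ≠ 0 := by exact_mod_cast hb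
  have hk' : (k : ℝ) ≠ 0 := by exact_mod_cast hk
  have h' : (k : ℝ) * (m * s - n * r) * (m * r + n * s) = 2 * m * n * r * s := by
    exact_mod_cast h
  refine ⟨!₂[((k * (m ^ 2 - n ^ 2) * r * s : ℤ) : ℝ), (k : ℝ) * (2 * m * n * r * s : ℤ)],
    !₂[0, 0], !₂[((2 * m * n * r * s : ℤ) : ℝ), 0], (k * (r ^ 2 + s ^ 2) * m * n).natAbs,
    (2 * m * n * r * s).natAbs, (k * (m ^ 2 + n ^ 2) * r * s).natAbs,
    indep _ _ _ hb' (mul_ne_zero hk' hb'), ?_, ?_, ?_, ?_, ?_, ?_, ?_⟩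
  · exact Int.natAbs_pos.2 (by positivity)
  · exact Int.natAbs_pos.2 hb
  · exact Int.natAbs_pos.2 (by positivity)
  · refine dist_pt _ _ _ _ _ (Nat.cast_nonneg _) ?_
    rw [Nat.cast_natAbs, Int.cast_abs, sq_abs]
    push_cast
    have h2 : (k : ℝ) * (m ^ 2 - n ^ 2) * r * s - 2 * m * n * r * s
        = k * (r ^ 2 - s ^ 2) * m * n := by linear_combination h'
    rw [h2]
    ring
  · refine dist_pt _ _ _ _ _ (Nat.cast_nonneg _) ?_
    rw [Nat.cast_natAbs, Int.cast_abs, sq_abs]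
    ring
  · refine dist_pt _ _ _ _ _ (Nat.cast_nonneg _) ?_
    rw [Nat.cast_natAbs, Int.cast_abs, sq_abs]
    push_cast
    ring
  · rw [infDist_line _ _ _ hb', abs_mul, Nat.cast_natAbs, Nat.cast_natAbs, Int.cast_abs,
      Int.cast_abs]

/-- The two relations between `a, d, e, f` give a triangle of ratio `|y z|`. -/
theorem triangle' (y z a d e f : ℤ) (hy : y ≠ 0) (hz : z ≠ 0) (ha : a ≠ 0) (hd : d ≠ 0)
    (he : e ≠ 0) (hf : f ≠ 0) (h1 : a ^ 2 - d ^ 2 * (y * z) = e * f)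
    (h2 : e ^ 2 * z + f ^ 2 * y = 2 * a * d) :
    ∃ (A B C : EuclideanSpace ℝ (Fin 2)) (a b c : ℕ), AffineIndependent ℝ ![A, B, C] ∧
      0 < a ∧ 0 < b ∧ 0 < c ∧ dist A C = a ∧ dist B C = b ∧ dist A B = c ∧
      Metric.infDist A (affineSpan ℝ {B, C} : Set (EuclideanSpace ℝ (Fin 2)))
        = ((y * z).natAbs : ℝ) * b := by
  refine triangle (y * z) (a * e) (d * f * y) (d * e * z) (a * f) (by positivity) (by positivity)
    (by positivity) (by positivity) (by positivity) ?_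
  have e1 : a * e * (a * f) - d * f * y * (d * e * z) = e * f * (e * f) := by
    linear_combination e * f * h1
  have e2 : a * e * (d * e * z) + d * f * y * (a * f) = a * d * (2 * a * d) := by
    linear_combination a * d * h2
  rw [e1, e2]
  ring

theorem odd_ne (x : ℤ) (y : ℤ) (h : x = 2 * y + 1) : x ≠ 0 := by omega

theorem result (δ t : ℤ) (hδ : δ = 3 ∨ δ = 21) (h0 : t ≠ 0) (h1 : t ^ 2 ≠ δ ^ 2)
    (h5 : ¬ (δ = 3 ∧ t ^ 2 = 25)) :
    ∃ (A B C : EuclideanSpace ℝ (Fin 2)) (a b c : ℕ), AffineIndependent ℝ ![A, B, C] ∧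
      0 < a ∧ 0 < b ∧ 0 < c ∧ dist A C = a ∧ dist B C = b ∧ dist A B = c ∧
      Metric.infDist A (affineSpan ℝ {B, C} : Set (EuclideanSpace ℝ (Fin 2)))
        = ((t ^ 2 - δ ^ 2).natAbs : ℝ) * b := by
  have hk : t ^ 2 - δ ^ 2 = (t + δ) * (t - δ) := by ring
  have hk0 : (t + δ) * (t - δ) ≠ 0 := hk ▸ sub_ne_zero.2 h1
  have hy := left_ne_zero_of_mul hk0
  have hz := right_ne_zero_of_mul hk0
  rw [hk]
  rcases hδ with rfl | rfl
  · have h25 : (t + 5) * (5 - t) ≠ 0 := fun h => h5 ⟨rfl, by linear_combination -h⟩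
    refine triangle' _ _ (t ^ 2 - 5) t (t + 5) (5 - t) hy hz ?_ h0 (left_ne_zero_of_mul h25)
      (right_ne_zero_of_mul h25) (by ring) (by ring)
    intro h
    have h3 : t ≤ 2 := by nlinarith
    have h4 : -2 ≤ t := by nlinarith
    interval_cases t <;> simp at h
  · refine triangle' _ _ (t * (4 * t ^ 4 - 2880 * t ^ 2 + 496125))
      (4 * t ^ 4 - 2000 * t ^ 2 + 163125)
      (4 * t ^ 4 - 160 * t ^ 3 - 9000 * t ^ 2 + 81000 * t + 3425625)
      (4 * t ^ 4 + 160 * t ^ 3 - 9000 * t ^ 2 - 81000 * t + 3425625) hy hz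
      (mul_ne_zero h0 (odd_ne _ (2 * t ^ 4 - 1440 * t ^ 2 + 248062) (by ring)))
      (odd_ne _ (2 * t ^ 4 - 1000 * t ^ 2 + 81562) (by ring))
      (odd_ne _ (2 * t ^ 4 - 80 * t ^ 3 - 4500 * t ^ 2 + 40500 * t + 1712812) (by ring))
      (odd_ne _ (2 * t ^ 4 + 80 * t ^ 3 - 4500 * t ^ 2 - 40500 * t + 1712812) (by ring))
      (by ring) (by ring)

end Pool.Agent.Results.MP_49cb33_nt.QuadraticFamilies
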